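import Pool.Agent.Helper51.CD.Defs

/-!
# A flag 2-sphere has an edge in no induced 4-cycle, or is an octahedron
-/

open Finset

namespace Pool.Agent.Helper60.F2S

open Pool.Agent.Helper51.CD

variable {X : Type}

theorem mem_nbr {G : SimpleGraph X} {A : Finset X} {u x : X} :
    x ∈ nbr G A u ↔ x ∈ A ∧ G.Adj u x := by
  classical
  unfold nbr
  rw [mem_filter]

/-- Every edge has exactly two common neighbours, and these are not adjacent. -/
def EdgeTwo (G : SimpleGraph X) (A : Finset X) : Prop :=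
  ∀ u ∈ A, ∀ w ∈ A, G.Adj u w → ∃ p ∈ A, ∃ q ∈ A, p ≠ q ∧ ¬ G.Adj p q ∧ G.Adj u p ∧ G.Adj w p ∧
    G.Adj u q ∧ G.Adj w q ∧ ∀ z ∈ A, G.Adj u z → G.Adj w z → z = p ∨ z = q

/-- The links of the vertices are connected. -/
def LinkConn (G : SimpleGraph X) (A : Finset X) : Prop :=
  ∀ u ∈ A, ∀ S ⊆ nbr G A u, S.Nonempty → (∀ y ∈ S, ∀ z ∈ A, G.Adj u z → G.Adj y z → z ∈ S) →
    S = nbr G A u

/-- The graph on `A` is connected. -/
def SetConn (G : SimpleGraph X) (A : Finset X) : Prop :=
  ∀ S ⊆ A, S.Nonempty → (∀ y ∈ S, ∀ z ∈ A, G.Adj y z → z ∈ S) → S = A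

/-- The crossing lemma. -/
def Cross (G : SimpleGraph X) (A : Finset X) : Prop :=
  ∀ v ∈ A, ∀ a ∈ A, ∀ b ∈ A, ∀ d ∈ A, ∀ c ∈ A, ∀ x ∈ A, ∀ y ∈ A, G.Adj v a → G.Adj v b →
    G.Adj v c → G.Adj v d → G.Adj a b → G.Adj a d → b ≠ d → c ≠ a → ¬ G.Adj a c → c ≠ b → c ≠ d →
    x ≠ v → ¬ G.Adj x v → G.Adj x a → G.Adj x c → y ≠ v → ¬ G.Adj y v → G.Adj y b → G.Adj y d →
    x = y

section

variable {G : SimpleGraph X} {A : Finset X}

/-- Two different common neighbours of an edge are all of them. -/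
theorem two_common (h2 : EdgeTwo G A) {u w p q : X} (hu : u ∈ A) (hw : w ∈ A) (huw : G.Adj u w)
    (hp : p ∈ A) (hq : q ∈ A) (hpq : p ≠ q) (h1 : G.Adj u p) (h3 : G.Adj w p) (h4 : G.Adj u q)
    (h5 : G.Adj w q) : ¬ G.Adj p q ∧ ∀ z ∈ A, G.Adj u z → G.Adj w z → z = p ∨ z = q := by
  obtain ⟨r, hr, s, hs, hrs, hn, _, _, _, _, h6⟩ := h2 u hu w hw huw
  rcases h6 p hp h1 h3 with rfl | rfl <;> rcases h6 q hq h4 h5 with rfl | rfl
  · exact absurd rfl hpq
  · exact ⟨hn, h6⟩
  · exact ⟨fun h => hn h.symm, fun z hz h7 h8 => (h6 z hz h7 h8).symm⟩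
  · exact absurd rfl hpq

/-- A 4-cycle in the link is the whole link. -/
theorem nbr_four [DecidableEq X] (h2 : EdgeTwo G A) (hl : LinkConn G A) {u a b c d : X}
    (hu : u ∈ A) (ha : a ∈ A) (hb : b ∈ A) (hc : c ∈ A) (hd : d ∈ A) (hac : a ≠ c) (hbd : b ≠ d)
    (ua : G.Adj u a) (ub : G.Adj u b) (uc : G.Adj u c) (ud : G.Adj u d)
    (ab : G.Adj a b) (bc : G.Adj b c) (cd : G.Adj c d) (da : G.Adj d a) :
    nbr G A u = {a, b, c, d} := by
  symm
  apply hl u hu
  · intro z hz
    simp only [mem_insert, mem_singleton] at hz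
    rw [mem_nbr]
    rcases hz with rfl | rfl | rfl | rfl
    · exact ⟨ha, ua⟩
    · exact ⟨hb, ub⟩
    · exact ⟨hc, uc⟩
    · exact ⟨hd, ud⟩
  · exact ⟨a, by simp⟩
  · intro y hy z hz uz yz
    simp only [mem_insert, mem_singleton] at hy ⊢
    rcases hy with rfl | rfl | rfl | rfl
    · have := (two_common h2 hu ha ua hb hd hbd ub ab ud da.symm).2 z hz uz yz
      tauto
    · have := (two_common h2 hu hb ub ha hc hac ua ab.symm uc bc).2 z hz uz yz
      tauto
    · have := (two_common h2 hu hc uc hb hd hbd ub bc.symm ud cd).2 z hz uz yz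
      tauto
    · have := (two_common h2 hu hd ud ha hc hac ua da uc cd.symm).2 z hz uz yz
      tauto

end

/-- `A` is an octahedron. -/
structure Octa (G : SimpleGraph X) (A : Finset X) (v x a b c d : X) : Prop where
  mem : ∀ z, z ∈ A ↔ z = v ∨ z = x ∨ z = a ∨ z = b ∨ z = c ∨ z = d
  va : G.Adj v a
  vb : G.Adj v b
  vc : G.Adj v c
  vd : G.Adj v d
  xa : G.Adj x a
  xb : G.Adj x b
  xc : G.Adj x c
  xd : G.Adj x d
  ab : G.Adj a b
  bc : G.Adj b c
  cd : G.Adj c d
  da : G.Adj d a
  nvx : v ≠ x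
  nac : a ≠ c
  nbd : b ≠ d
  fvx : ¬ G.Adj v x
  fac : ¬ G.Adj a c
  fbd : ¬ G.Adj b d

/-- The edge `v w` is in no induced 4-cycle. -/
def GoodEdge (G : SimpleGraph X) (A : Finset X) (v w : X) : Prop :=
  ∀ x ∈ A, ∀ y ∈ A, G.Adj v x → G.Adj x y → G.Adj y w → G.Adj v y ∨ G.Adj x w ∨ y = v ∨ x = w

section

variable {G : SimpleGraph X} {A : Finset X}

/-- An edge that is not good: there is a vertex `c` of the link of `v` not adjacent to `a` and a
vertex outside the star adjacent to both. -/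
theorem bad_edge {v a : X} (h : ¬ GoodEdge G A v a) : ∃ c ∈ A, ∃ x ∈ A, G.Adj v c ∧ c ≠ a ∧
    ¬ G.Adj a c ∧ x ≠ v ∧ ¬ G.Adj x v ∧ G.Adj x a ∧ G.Adj x c := by
  unfold GoodEdge at h
  push Not at h
  obtain ⟨c, hc, x, hx, h1, h3, h4, h5, h6, h7, h8⟩ := h
  exact ⟨c, hc, x, hx, h1, h8, fun h => h6 h.symm, h7, fun h => h5 h.symm, h4, h3.symm⟩

theorem deg_four [DecidableEq X] (h2 : EdgeTwo G A) (hl : LinkConn G A) (hs : SetConn G A)
    (hx : Cross G A) {v a b c d : X}
    (hv : v ∈ A) (ha : a ∈ A) (hb : b ∈ A) (hc : c ∈ A) (hd : d ∈ A) (hac : a ≠ c) (hbd : b ≠ d)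
    (va : G.Adj v a) (vb : G.Adj v b) (vc : G.Adj v c) (vd : G.Adj v d)
    (ab : G.Adj a b) (bc : G.Adj b c) (cd : G.Adj c d) (da : G.Adj d a)
    (b1 : ¬ GoodEdge G A v a) (b2 : ¬ GoodEdge G A v b) : ∃ x, Octa G A v x a b c d := by
  have hN := nbr_four h2 hl hv ha hb hc hd hac hbd va vb vc vd ab bc cd da
  have fbd := (two_common h2 hv ha va hb hd hbd vb ab vd da.symm).1
  have fac := (two_common h2 hv hb vb ha hc hac va ab.symm vc bc).1
  obtain ⟨c', hc', x, hxA, h1, h3, h4, h5, h6, h7, h8⟩ := bad_edge b1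
  have e1 : c' = c := by
    have : c' ∈ nbr G A v := mem_nbr.2 ⟨hc', h1⟩
    rw [hN] at this
    simp only [mem_insert, mem_singleton] at this
    rcases this with rfl | rfl | rfl | rfl
    · exact absurd rfl h3
    · exact absurd ab h4
    · rfl
    · exact absurd da.symm h4
  subst e1
  obtain ⟨d', hd', y, hyA, k1, k3, k4, k5, k6, k7, k8⟩ := bad_edge b2
  have e2 : d' = d := by
    have : d' ∈ nbr G A v := mem_nbr.2 ⟨hd', k1⟩
    rw [hN] at this
    simp only [mem_insert, mem_singleton] at this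
    rcases this with rfl | rfl | rfl | rfl
    · exact absurd ab.symm k4
    · exact absurd rfl k3
    · exact absurd bc k4
    · rfl
  subst e2
  have e3 : x = y := hx v hv a ha b hb d' hd c' hc x hxA y hyA va vb vc vd ab da.symm hbd hac.symm
    fac bc.ne' cd.ne h5 h6 h7 h8 k5 k6 k7 k8
  subst e3
  have Na := nbr_four h2 hl ha hv hb hxA hd h5.symm hbd va.symm ab h7.symm da.symm vb k7.symm k8
    vd.symm
  have Nb := nbr_four h2 hl hb hv ha hxA hc h5.symm hac vb.symm ab.symm k7.symm bc va h7.symm h8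
    vc.symm
  have Nc := nbr_four h2 hl hc hv hb hxA hd h5.symm hbd vc.symm bc.symm h8.symm cd vb k7.symm k8
    vd.symm
  have Nd := nbr_four h2 hl hd hv ha hxA hc h5.symm hac vd.symm da k8.symm cd.symm va h7.symm h8
    vc.symm
  have Nx := nbr_four h2 hl hxA ha hb hc hd hac hbd h7 k7 h8 k8 ab bc cd da
  have hA : ({v, x, a, b, c', d'} : Finset X) = A := by
    apply hs
    · intro z hz
      simp only [mem_insert, mem_singleton] at hz
      rcases hz with rfl | rfl | rfl | rfl | rfl | rfl <;> assumption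
    · exact ⟨v, by simp⟩
    · intro y hy z hz yz
      have hz' : z ∈ nbr G A y := mem_nbr.2 ⟨hz, yz⟩
      simp only [mem_insert, mem_singleton] at hy
      rcases hy with rfl | rfl | rfl | rfl | rfl | rfl
      · rw [hN] at hz'
        simp only [mem_insert, mem_singleton] at hz' ⊢
        tauto
      · rw [Nx] at hz'
        simp only [mem_insert, mem_singleton] at hz' ⊢
        tauto
      · rw [Na] at hz'
        simp only [mem_insert, mem_singleton] at hz' ⊢
        tauto
      · rw [Nb] at hz'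
        simp only [mem_insert, mem_singleton] at hz' ⊢
        tauto
      · rw [Nc] at hz'
        simp only [mem_insert, mem_singleton] at hz' ⊢
        tauto
      · rw [Nd] at hz'
        simp only [mem_insert, mem_singleton] at hz' ⊢
        tauto
  refine ⟨x, ⟨fun z => ?_, va, vb, vc, vd, h7, k7, h8, k8, ab, bc, cd, da, h5.symm, hac, hbd,
    fun h => h6 h.symm, fac, fbd⟩⟩
  rw [← hA]
  simp only [mem_insert, mem_singleton]

/-- There is a vertex outside the star of `v` adjacent to `p` and `q`. -/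
def Bad (G : SimpleGraph X) (A : Finset X) (v p q : X) : Prop :=
  ∃ x ∈ A, x ≠ v ∧ ¬ G.Adj x v ∧ G.Adj x p ∧ G.Adj x q

theorem Bad.symm {v p q : X} (h : Bad G A v p q) : Bad G A v q p := by
  obtain ⟨x, hx, h1, h2, h3, h4⟩ := h
  exact ⟨x, hx, h1, h2, h4, h3⟩

/-- Three consecutive bad chords in a pentagon give a vertex of degree four. -/
theorem three_step [DecidableEq X] (h2 : EdgeTwo G A) (hl : LinkConn G A)
    (hx : Cross G A) {v a b c d e : X} (hv : v ∈ A) (ha : a ∈ A) (hb : b ∈ A) (hc : c ∈ A)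
    (hd : d ∈ A) (he : e ∈ A) (va : G.Adj v a) (vb : G.Adj v b) (vc : G.Adj v c) (vd : G.Adj v d)
    (ve : G.Adj v e) (ab : G.Adj a b) (bc : G.Adj b c) (cd : G.Adj c d) (_de : G.Adj d e)
    (ea : G.Adj e a) (hac : a ≠ c) (hbd : b ≠ d) (hce : c ≠ e) (hda : d ≠ a) (heb : e ≠ b)
    (fbd : ¬ G.Adj b d) (feb : ¬ G.Adj e b)
    (b1 : Bad G A v e b) (b2 : Bad G A v a c) (b3 : Bad G A v b d) : (nbr G A b).card = 4 := by
  obtain ⟨x, hxA, x1, x2, x3, x4⟩ := b1
  obtain ⟨y, hyA, y1, y2, y3, y4⟩ := b2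
  obtain ⟨z, hzA, z1, z2, z3, z4⟩ := b3
  have e1 : z = y := hx v hv b hb a ha c hc d hd z hzA y hyA vb va vd vc ab.symm bc hac hbd.symm
    fbd hda cd.ne' z1 z2 z3 z4 y1 y2 y3 y4
  have e2 : x = y := hx v hv b hb a ha c hc e he x hxA y hyA vb va ve vc ab.symm bc hac heb
    (fun h => feb h.symm) ea.ne hce.symm x1 x2 x4 x3 y1 y2 y3 y4
  subst e1
  subst e2
  rw [nbr_four h2 hl hb hv ha hxA hc x1.symm hac vb.symm ab.symm x4.symm bc va y3.symm y4
    vc.symm]
  have n1 : v ∉ ({a, x, c} : Finset X) := by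
    simp only [mem_insert, mem_singleton, not_or]
    exact ⟨va.ne, x1.symm, vc.ne⟩
  have n2 : a ∉ ({x, c} : Finset X) := by
    simp only [mem_insert, mem_singleton, not_or]
    exact ⟨y3.ne', hac⟩
  have n3 : x ∉ ({c} : Finset X) := by
    simp only [mem_singleton]
    exact y4.ne
  rw [card_insert_of_notMem n1, card_insert_of_notMem n2, card_insert_of_notMem n3, card_singleton]

/-- In the link of a vertex: a path of four vertices around a neighbour. -/
theorem link_path (h2 : EdgeTwo G A) {v : X} (hv : v ∈ A) {a : X} (ha : a ∈ A) (va : G.Adj v a) :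
    ∃ b ∈ A, ∃ e ∈ A, ∃ c ∈ A, ∃ d ∈ A, G.Adj v b ∧ G.Adj v e ∧ G.Adj v c ∧ G.Adj v d ∧
      G.Adj a b ∧ G.Adj e a ∧ G.Adj b c ∧ G.Adj d e ∧ a ≠ c ∧ d ≠ a ∧ e ≠ b ∧ ¬ G.Adj a c ∧
      ¬ G.Adj d a ∧ ¬ G.Adj e b ∧ c ≠ e ∧ d ≠ b := by
  obtain ⟨b, hb, e, he, hbe, fbe, vb, ab, ve, ae, h3⟩ := h2 v hv a ha va
  have h4 : ∃ c ∈ A, c ≠ a ∧ G.Adj v c ∧ G.Adj b c := by
    obtain ⟨p, hp, q, hq, hpq, _, vp, bp, vq, bq, _⟩ := h2 v hv b hb vb
    by_cases h : p = a
    · exact ⟨q, hq, fun h' => hpq (h.trans h'.symm), vq, bq⟩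
    · exact ⟨p, hp, h, vp, bp⟩
  have h5 : ∃ c ∈ A, c ≠ a ∧ G.Adj v c ∧ G.Adj e c := by
    obtain ⟨p, hp, q, hq, hpq, _, vp, bp, vq, bq, _⟩ := h2 v hv e he ve
    by_cases h : p = a
    · exact ⟨q, hq, fun h' => hpq (h.trans h'.symm), vq, bq⟩
    · exact ⟨p, hp, h, vp, bp⟩
  obtain ⟨c, hc, hca, vc, bc⟩ := h4
  obtain ⟨d, hd, hda, vd, ed⟩ := h5
  have fac := (two_common h2 hv hb vb ha hc hca.symm va ab.symm vc bc).1
  have fda := (two_common h2 hv he ve hd ha hda vd ed va ae.symm).1
  refine ⟨b, hb, e, he, c, hc, d, hd, vb, ve, vc, vd, ab, ae.symm, bc, ed.symm, hca.symm, hda,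
    hbe.symm, fac, fda, fun h => fbe h.symm, ?_, ?_⟩
  · rintro rfl
    exact fbe bc
  · rintro rfl
    exact fbe ed.symm

theorem pent_prop {P Q R S T : Prop} (Ba : P ∨ S) (Bb : Q ∨ T) (Bc : R ∨ P) (Bd : S ∨ Q)
    (Be : T ∨ R) (T1 : T → P → Q → False) (T2 : P → Q → R → False) (T3 : Q → R → S → False)
    (T4 : R → S → T → False) (T5 : S → T → P → False) : False := by
  by_cases hP : P <;> by_cases hQ : Q <;> by_cases hR : R <;> by_cases hS : S <;>
    by_cases hT : T <;> simp_all

/-- **A flag 2-sphere has an edge in no induced 4-cycle, or is an octahedron.** -/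
theorem edge_or_octa (h2 : EdgeTwo G A) (hl : LinkConn G A) (hs : SetConn G A)
    (hdeg : ∑ a ∈ A, (nbr G A a).card + 12 = 6 * A.card) (hx : Cross G A) :
    (∃ v ∈ A, ∃ w ∈ A, G.Adj v w ∧ GoodEdge G A v w) ∨ ∃ v x a b c d, Octa G A v x a b c d := by
  classical
  by_cases hgood : ∃ v ∈ A, ∃ w ∈ A, G.Adj v w ∧ GoodEdge G A v w
  · exact Or.inl hgood
  right
  have hbad : ∀ v ∈ A, ∀ w ∈ A, G.Adj v w → ¬ GoodEdge G A v w := fun v hv w hw h h' =>
    hgood ⟨v, hv, w, hw, h, h'⟩
  -- every vertex has a neighbour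
  have hnb : ∀ v ∈ A, ∃ a ∈ A, G.Adj v a := by
    intro v hv
    by_contra h
    push Not at h
    have h1 : ({v} : Finset X) = A := by
      apply hs _ (singleton_subset_iff.2 hv) (singleton_nonempty v)
      intro y hy z hz yz
      rw [mem_singleton.1 hy] at yz
      exact absurd yz (h z hz)
    have h3 : nbr G A v = ∅ := by
      rw [eq_empty_iff_forall_notMem]
      intro x hx
      exact h x (mem_nbr.1 hx).1 (mem_nbr.1 hx).2
    rw [← h1] at hdeg h3
    rw [sum_singleton, h3, card_singleton] at hdeg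
    simp at hdeg
  by_cases h4 : ∃ v ∈ A, (nbr G A v).card ≤ 4
  · obtain ⟨v, hv, hcard⟩ := h4
    obtain ⟨a, ha, va⟩ := hnb v hv
    obtain ⟨b, hb, e, he, c, hc, d, hd, vb, ve, vc, vd, ab, ea, bc, de, hac, hda, heb, fac, fda,
      feb, hce, hdb⟩ := link_path h2 hv ha va
    have hcd : c = d := by
      by_contra hcd
      have h5 : ({a, b, e, c, d} : Finset X) ⊆ nbr G A v := by
        intro z hz
        simp only [mem_insert, mem_singleton] at hz
        rw [mem_nbr]
        rcases hz with rfl | rfl | rfl | rfl | rfl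
        · exact ⟨ha, va⟩
        · exact ⟨hb, vb⟩
        · exact ⟨he, ve⟩
        · exact ⟨hc, vc⟩
        · exact ⟨hd, vd⟩
      have h6 := card_le_card h5
      have n1 : a ∉ ({b, e, c, d} : Finset X) := by
        simp only [mem_insert, mem_singleton, not_or]
        exact ⟨ab.ne, ea.ne', hac, hda.symm⟩
      have n2 : b ∉ ({e, c, d} : Finset X) := by
        simp only [mem_insert, mem_singleton, not_or]
        exact ⟨heb.symm, bc.ne, hdb.symm⟩
      have n3 : e ∉ ({c, d} : Finset X) := by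
        simp only [mem_insert, mem_singleton, not_or]
        exact ⟨hce.symm, de.ne'⟩
      have n4 : c ∉ ({d} : Finset X) := by
        simp only [mem_singleton]
        exact hcd
      rw [card_insert_of_notMem n1, card_insert_of_notMem n2, card_insert_of_notMem n3,
        card_insert_of_notMem n4, card_singleton] at h6
      omega
    subst hcd
    obtain ⟨x, hO⟩ := deg_four h2 hl hs hx hv ha hb hc he hac heb.symm va vb vc ve ab bc de ea
      (hbad v hv a ha va) (hbad v hv b hb vb)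
    exact ⟨v, x, a, b, c, e, hO⟩
  · exfalso
    push Not at h4
    -- a vertex of degree five
    have h5 : ∃ v ∈ A, (nbr G A v).card ≤ 5 := by
      by_contra h
      push Not at h
      have : ∑ a ∈ A, 6 ≤ ∑ a ∈ A, (nbr G A a).card := sum_le_sum fun a ha => h a ha
      rw [sum_const, smul_eq_mul] at this
      omega
    obtain ⟨v, hv, hcard⟩ := h5
    obtain ⟨a, ha, va⟩ := hnb v hv
    obtain ⟨b, hb, e, he, c, hc, d, hd, vb, ve, vc, vd, ab, ea, bc, de, hac, hda, heb, fac, fda,
      feb, hce, hdb⟩ := link_path h2 hv ha va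
    have hcd : c ≠ d := by
      rintro rfl
      have h6 := nbr_four h2 hl hv ha hb hc he hac heb.symm va vb vc ve ab bc de ea
      have h7 := h4 v hv
      rw [h6] at h7
      have h8 : ({a, b, c, e} : Finset X).card ≤ 4 := card_le_four
      omega
    have hsub : ({a, b, c, d, e} : Finset X) ⊆ nbr G A v := by
      intro z hz
      simp only [mem_insert, mem_singleton] at hz
      rw [mem_nbr]
      rcases hz with rfl | rfl | rfl | rfl | rfl
      · exact ⟨ha, va⟩
      · exact ⟨hb, vb⟩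
      · exact ⟨hc, vc⟩
      · exact ⟨hd, vd⟩
      · exact ⟨he, ve⟩
    have hcard5 : ({a, b, c, d, e} : Finset X).card = 5 := by
      have n1 : a ∉ ({b, c, d, e} : Finset X) := by
        simp only [mem_insert, mem_singleton, not_or]
        exact ⟨ab.ne, hac, hda.symm, ea.ne'⟩
      have n2 : b ∉ ({c, d, e} : Finset X) := by
        simp only [mem_insert, mem_singleton, not_or]
        exact ⟨bc.ne, hdb.symm, heb.symm⟩
      have n3 : c ∉ ({d, e} : Finset X) := by
        simp only [mem_insert, mem_singleton, not_or]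
        exact ⟨hcd, hce⟩
      have n4 : d ∉ ({e} : Finset X) := by
        simp only [mem_singleton]
        exact de.ne
      rw [card_insert_of_notMem n1, card_insert_of_notMem n2, card_insert_of_notMem n3,
        card_insert_of_notMem n4, card_singleton]
    have hN : ({a, b, c, d, e} : Finset X) = nbr G A v :=
      eq_of_subset_of_card_le hsub (by rw [hcard5]; exact hcard)
    have hmem : ∀ z ∈ A, G.Adj v z → z = a ∨ z = b ∨ z = c ∨ z = d ∨ z = e := by
      intro z hz vz
      have : z ∈ nbr G A v := mem_nbr.2 ⟨hz, vz⟩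
      rw [← hN] at this
      simpa only [mem_insert, mem_singleton] using this
    -- the common neighbours of `v` and `b` are `a`, `c`; of `v` and `e`: `a`, `d`
    have cb := (two_common h2 hv hb vb ha hc hac va ab.symm vc bc)
    have ce := (two_common h2 hv he ve hd ha hda vd de.symm va ea)
    have ca := (two_common h2 hv ha va hb he heb.symm vb ab ve ea.symm)
    have fbd : ¬ G.Adj b d := fun h => by
      rcases cb.2 d hd vd h with h | h
      · exact hda h
      · exact hcd h.symm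
    have fce : ¬ G.Adj c e := fun h => by
      rcases ce.2 c hc vc h.symm with h | h
      · exact hcd h
      · exact hac h.symm
    have cd : G.Adj c d := by
      obtain ⟨p, hp, q, hq, hpq, _, vp, cp, vq, cq, _⟩ := h2 v hv c hc vc
      have key : ∀ z ∈ A, G.Adj v z → G.Adj c z → z = b ∨ z = d := by
        intro z hz vz cz
        rcases hmem z hz vz with rfl | rfl | rfl | rfl | rfl
        · exact absurd cz.symm fac
        · exact Or.inl rfl
        · exact absurd rfl cz.ne
        · exact Or.inr rfl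
        · exact absurd cz fce
      rcases key p hp vp cp with rfl | rfl
      · rcases key q hq vq cq with rfl | rfl
        · exact absurd rfl hpq
        · exact cq
      · exact cp
    -- the bad chords
    have Ba : Bad G A v a c ∨ Bad G A v d a := by
      obtain ⟨z, hz, x, hxA, h6, h7, h8, h9, h10, h11, h12⟩ := bad_edge (hbad v hv a ha va)
      rcases hmem z hz h6 with rfl | rfl | rfl | rfl | rfl
      · exact absurd rfl h7
      · exact absurd ab h8
      · exact Or.inl ⟨x, hxA, h9, h10, h11, h12⟩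
      · exact Or.inr ⟨x, hxA, h9, h10, h12, h11⟩
      · exact absurd ea.symm h8
    have Bb : Bad G A v b d ∨ Bad G A v e b := by
      obtain ⟨z, hz, x, hxA, h6, h7, h8, h9, h10, h11, h12⟩ := bad_edge (hbad v hv b hb vb)
      rcases hmem z hz h6 with rfl | rfl | rfl | rfl | rfl
      · exact absurd ab.symm h8
      · exact absurd rfl h7
      · exact absurd bc h8
      · exact Or.inl ⟨x, hxA, h9, h10, h11, h12⟩
      · exact Or.inr ⟨x, hxA, h9, h10, h12, h11⟩
    have Bc : Bad G A v c e ∨ Bad G A v a c := by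
      obtain ⟨z, hz, x, hxA, h6, h7, h8, h9, h10, h11, h12⟩ := bad_edge (hbad v hv c hc vc)
      rcases hmem z hz h6 with rfl | rfl | rfl | rfl | rfl
      · exact Or.inr ⟨x, hxA, h9, h10, h12, h11⟩
      · exact absurd bc.symm h8
      · exact absurd rfl h7
      · exact absurd cd h8
      · exact Or.inl ⟨x, hxA, h9, h10, h11, h12⟩
    have Bd : Bad G A v d a ∨ Bad G A v b d := by
      obtain ⟨z, hz, x, hxA, h6, h7, h8, h9, h10, h11, h12⟩ := bad_edge (hbad v hv d hd vd)
      rcases hmem z hz h6 with rfl | rfl | rfl | rfl | rfl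
      · exact Or.inl ⟨x, hxA, h9, h10, h11, h12⟩
      · exact Or.inr ⟨x, hxA, h9, h10, h12, h11⟩
      · exact absurd cd.symm h8
      · exact absurd rfl h7
      · exact absurd de h8
    have Be : Bad G A v e b ∨ Bad G A v c e := by
      obtain ⟨z, hz, x, hxA, h6, h7, h8, h9, h10, h11, h12⟩ := bad_edge (hbad v hv e he ve)
      rcases hmem z hz h6 with rfl | rfl | rfl | rfl | rfl
      · exact absurd ea h8
      · exact Or.inl ⟨x, hxA, h9, h10, h11, h12⟩
      · exact Or.inr ⟨x, hxA, h9, h10, h12, h11⟩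
      · exact absurd de.symm h8
      · exact absurd rfl h7
    -- three consecutive bad chords
    have T1 : Bad G A v e b → Bad G A v a c → Bad G A v b d → False := fun k1 k2 k3 => by
      have := three_step h2 hl hx hv ha hb hc hd he va vb vc vd ve ab bc cd de ea hac hdb.symm hce
        hda heb fbd feb k1 k2 k3
      have h9 := h4 b hb
      omega
    have T2 : Bad G A v a c → Bad G A v b d → Bad G A v c e → False := fun k1 k2 k3 => by
      have := three_step h2 hl hx hv hb hc hd he ha vb vc vd ve va bc cd de ea ab hdb.symm hce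
        hda heb hac fce fac k1 k2 k3
      have h9 := h4 c hc
      omega
    have T3 : Bad G A v b d → Bad G A v c e → Bad G A v d a → False := fun k1 k2 k3 => by
      have := three_step h2 hl hx hv hc hd he ha hb vc vd ve va vb cd de ea ab bc hce hda heb hac
        hdb.symm fda fbd k1 k2 k3
      have h9 := h4 d hd
      omega
    have T4 : Bad G A v c e → Bad G A v d a → Bad G A v e b → False := fun k1 k2 k3 => by
      have := three_step h2 hl hx hv hd he ha hb hc vd ve va vb vc de ea ab bc cd hda heb hac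
        hdb.symm hce feb fce k1 k2 k3
      have h9 := h4 e he
      omega
    have T5 : Bad G A v d a → Bad G A v e b → Bad G A v a c → False := fun k1 k2 k3 => by
      have := three_step h2 hl hx hv he ha hb hc hd ve va vb vc vd ea ab bc cd de heb hac hdb.symm
        hce hda fac fda k1 k2 k3
      have h9 := h4 a ha
      omega
    exact pent_prop Ba Bb Bc Bd Be T1 T2 T3 T4 T5

end

end Pool.Agent.Helper60.F2S
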